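import Pool.Agent.H6.NE.Stm3

/-!
# NE: part KCH (Kirillov's character formula)
-/

set_option autoImplicit false
set_option linter.unusedSectionVars false
set_option linter.style.haveILetI false

open Finset H6.NE

namespace H17.NE

section abs
variable {p N : ℕ} [NeZero (p ^ N)] {H L : Type} [Group H] [Fintype H] [AddCommGroup L]
  [Module (ZMod (p ^ N)) L] [Fintype L] (act : Representation (ZMod (p ^ N)) H L)

theorem act_inv (h : H) (x : L) : act h (act h⁻¹ x) = x := by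
  rw [← Module.End.mul_apply, ← map_mul, mul_inv_cancel, map_one]; rfl

theorem act_inv' (h : H) (x : L) : act h⁻¹ (act h x) = x := by
  rw [← Module.End.mul_apply, ← map_mul, inv_mul_cancel, map_one]; rfl

/-- the permutation of `L` given by `h` -/
def actE (h : H) : L ≃ L where
  toFun := act h
  invFun := act h⁻¹
  left_inv x := act_inv' act h x
  right_inv x := act_inv act h x

theorem shift (F : L → ℂ) (hF : ∀ h x, F (act h x) = F x) (u : L → ℂ) (h : H) :
    ∑ x, F x * u (act h x) = ∑ x, F x * u x := by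
  rw [← Equiv.sum_comp (actE act h) (fun x => F x * u x)]
  refine Finset.sum_congr rfl fun x _ => ?_
  show F x * u (act h x) = F (act h x) * u (act h x)
  rw [hF]

/-- averaging -/
theorem avg (F : L → ℂ) (hF : ∀ h x, F (act h x) = F x) (u : L → ℂ) :
    ∑ x, F x * ∑ h : H, u (act h x) = (Fintype.card H : ℂ) * ∑ x, F x * u x := by
  simp_rw [Finset.mul_sum]
  rw [Finset.sum_comm]
  simp_rw [← Finset.mul_sum]
  have : ∀ h : H, ∑ x, F x * u (act h x) = ∑ x, F x * u x := fun h => shift act F hF u h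
  simp_rw [this]
  rw [Finset.sum_const, Finset.card_univ, nsmul_eq_mul]

end abs

section norm

theorem norm_lemma {L : Type} [Fintype L] (F G : L → ℂ) (a : ℝ) (n : ℕ) (hn : n ≠ 0) (ha : 0 ≤ a)
    (hFF : ∑ x, F x * (starRingEnd ℂ) (F x) = a) (hGG : ∑ x, G x * (starRingEnd ℂ) (G x) = a)
    (hFG : ∑ x, F x * (starRingEnd ℂ) (G x) = n * a) : ∀ x, F x = G x := by
  have hGF : ∑ x, G x * (starRingEnd ℂ) (F x) = n * a := by
    have := congrArg (starRingEnd ℂ) hFG
    rw [map_sum] at this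
    simp only [map_mul, Complex.conj_conj, Complex.conj_ofReal, map_natCast] at this
    rw [← this]
    exact Finset.sum_congr rfl fun x _ => mul_comm _ _
  have h1 : ∑ x, (F x - G x) * (starRingEnd ℂ) (F x - G x) = (2 - 2 * n) * a := by
    have : ∀ x, (F x - G x) * (starRingEnd ℂ) (F x - G x) =
        F x * (starRingEnd ℂ) (F x) - F x * (starRingEnd ℂ) (G x) - G x * (starRingEnd ℂ) (F x)
          + G x * (starRingEnd ℂ) (G x) := by
      intro x; rw [map_sub]; ring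
    simp_rw [this]
    rw [Finset.sum_add_distrib, Finset.sum_sub_distrib, Finset.sum_sub_distrib, hFF, hGG, hFG, hGF]
    ring
  have h2 : ∑ x, ‖F x - G x‖ ^ 2 = (2 - 2 * n) * a := by
    have h3 : ((∑ x, ‖F x - G x‖ ^ 2 : ℝ) : ℂ) = (((2 - 2 * n) * a : ℝ) : ℂ) := by
      push_cast
      rw [← h1]
      refine Finset.sum_congr rfl fun x _ => ?_
      rw [Complex.mul_conj, Complex.normSq_eq_norm_sq]
      push_cast
      rfl
    exact_mod_cast h3
  have h3 : ∑ x, ‖F x - G x‖ ^ 2 ≤ 0 := by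
    rw [h2]
    have : (1 : ℝ) ≤ n := by exact_mod_cast Nat.one_le_iff_ne_zero.mpr hn
    nlinarith
  have h4 : ∑ x, ‖F x - G x‖ ^ 2 = 0 := le_antisymm h3 (Finset.sum_nonneg fun x _ => by positivity)
  rw [Finset.sum_eq_zero_iff_of_nonneg (fun x _ => by positivity)] at h4
  intro x
  have h5 := h4 x (Finset.mem_univ x)
  have h6 : ‖F x - G x‖ = 0 := by
    rcases pow_eq_zero_iff (two_ne_zero) |>.mp h5 with h
    exact h
  exact sub_eq_zero.mp (norm_eq_zero.mp h6)

end norm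

section dual
variable {p N : ℕ} [Fact p.Prime] [NeZero (p ^ N)]

instance finDual (Q : Type) [AddCommGroup Q] [Module (ZMod (p ^ N)) Q] [Finite Q] :
    Finite (Q →ₗ[ZMod (p ^ N)] ZMod (p ^ N)) :=
  Finite.of_injective (fun f => (f : Q → ZMod (p ^ N))) DFunLike.coe_injective

/-- dual orthogonality -/
theorem dual_orth (hFOU : S_FOU) (Q : Type) [AddCommGroup Q] [Module (ZMod (p ^ N)) Q] [Finite Q]
    [Fintype (Q →ₗ[ZMod (p ^ N)] ZMod (p ^ N))] (y : Q) (hy : y ≠ 0) :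
    ∑ q : Q →ₗ[ZMod (p ^ N)] ZMod (p ^ N), (ZMod.stdAddChar (N := p ^ N) (q y) : ℂ) = 0 := by
  haveI := Fintype.ofFinite Q
  obtain ⟨-, -, -, h4, h5, -⟩ := hFOU p N Q
  obtain ⟨q0, hq0⟩ := h4 y hy
  have h6 : (ZMod.stdAddChar (N := p ^ N) (q0 y) : ℂ) ≠ 1 := fun h => hq0 (h5 _ h)
  have h7 : (ZMod.stdAddChar (N := p ^ N) (q0 y) : ℂ) *
      ∑ q : Q →ₗ[ZMod (p ^ N)] ZMod (p ^ N), (ZMod.stdAddChar (N := p ^ N) (q y) : ℂ) =
      ∑ q : Q →ₗ[ZMod (p ^ N)] ZMod (p ^ N), (ZMod.stdAddChar (N := p ^ N) (q y) : ℂ) := by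
    rw [Finset.mul_sum, ← Equiv.sum_comp (Equiv.addLeft q0)
      (fun q : Q →ₗ[ZMod (p ^ N)] ZMod (p ^ N) => (ZMod.stdAddChar (N := p ^ N) (q y) : ℂ))]
    refine Finset.sum_congr rfl fun q _ => ?_
    simp only [Equiv.coe_addLeft, LinearMap.add_apply, AddChar.map_add_eq_mul]
  have h8 : ((ZMod.stdAddChar (N := p ^ N) (q0 y) : ℂ) - 1) *
      ∑ q : Q →ₗ[ZMod (p ^ N)] ZMod (p ^ N), (ZMod.stdAddChar (N := p ^ N) (q y) : ℂ) = 0 := by
    rw [sub_mul, one_mul, h7, sub_self]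
  rcases mul_eq_zero.mp h8 with h | h
  · exact absurd (sub_eq_zero.mp h) h6
  · exact h

/-- the subspace lemma -/
theorem subsp (hFOU : S_FOU) (L : Type) [AddCommGroup L] [Module (ZMod (p ^ N)) L] [Fintype L]
    (L1 : Submodule (ZMod (p ^ N)) L) [DecidablePred (· ∈ L1)]
    (f : L →ₗ[ZMod (p ^ N)] ZMod (p ^ N)) (F : L → ℂ)
    (h : ∀ f' : L →ₗ[ZMod (p ^ N)] ZMod (p ^ N), (∀ x ∈ L1, f' x = f x) →
      ∑ x, F x * (starRingEnd ℂ) (ZMod.stdAddChar (N := p ^ N) (f' x) : ℂ) =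
      ∑ x, F x * (starRingEnd ℂ) (ZMod.stdAddChar (N := p ^ N) (f x) : ℂ)) :
    ∑ x, F x * (starRingEnd ℂ) (ZMod.stdAddChar (N := p ^ N) (f x) : ℂ) =
      ∑ x, if x ∈ L1 then F x * (starRingEnd ℂ) (ZMod.stdAddChar (N := p ^ N) (f x) : ℂ) else 0 := by
  haveI : Fintype ((L ⧸ L1) →ₗ[ZMod (p ^ N)] ZMod (p ^ N)) := Fintype.ofFinite _
  set D := Fintype.card ((L ⧸ L1) →ₗ[ZMod (p ^ N)] ZMod (p ^ N)) with hD
  have hD0 : (D : ℂ) ≠ 0 := by
    have : D ≠ 0 := Fintype.card_ne_zero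
    exact_mod_cast this
  have h1 : ∑ q : (L ⧸ L1) →ₗ[ZMod (p ^ N)] ZMod (p ^ N),
      ∑ x, F x * (starRingEnd ℂ) (ZMod.stdAddChar (N := p ^ N) ((f + q.comp L1.mkQ) x) : ℂ) =
      (D : ℂ) * ∑ x, F x * (starRingEnd ℂ) (ZMod.stdAddChar (N := p ^ N) (f x) : ℂ) := by
    have : ∀ q : (L ⧸ L1) →ₗ[ZMod (p ^ N)] ZMod (p ^ N),
        ∑ x, F x * (starRingEnd ℂ) (ZMod.stdAddChar (N := p ^ N) ((f + q.comp L1.mkQ) x) : ℂ) =
        ∑ x, F x * (starRingEnd ℂ) (ZMod.stdAddChar (N := p ^ N) (f x) : ℂ) := by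
      intro q
      refine h _ fun x hx => ?_
      simp only [LinearMap.add_apply, LinearMap.comp_apply, Submodule.mkQ_apply]
      rw [(Submodule.Quotient.mk_eq_zero L1).mpr hx, map_zero, add_zero]
    simp_rw [this]
    rw [Finset.sum_const, Finset.card_univ, nsmul_eq_mul]
  have h2 : ∑ q : (L ⧸ L1) →ₗ[ZMod (p ^ N)] ZMod (p ^ N),
      ∑ x, F x * (starRingEnd ℂ) (ZMod.stdAddChar (N := p ^ N) ((f + q.comp L1.mkQ) x) : ℂ) =
      (D : ℂ) * ∑ x, if x ∈ L1 then
        F x * (starRingEnd ℂ) (ZMod.stdAddChar (N := p ^ N) (f x) : ℂ) else 0 := by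
    rw [Finset.sum_comm, Finset.mul_sum]
    refine Finset.sum_congr rfl fun x _ => ?_
    have h3 : ∀ q : (L ⧸ L1) →ₗ[ZMod (p ^ N)] ZMod (p ^ N),
        F x * (starRingEnd ℂ) (ZMod.stdAddChar (N := p ^ N) ((f + q.comp L1.mkQ) x) : ℂ) =
        F x * (starRingEnd ℂ) (ZMod.stdAddChar (N := p ^ N) (f x) : ℂ) *
          (starRingEnd ℂ) (ZMod.stdAddChar (N := p ^ N) (q (L1.mkQ x)) : ℂ) := by
      intro q
      simp only [LinearMap.add_apply, LinearMap.comp_apply, AddChar.map_add_eq_mul, map_mul]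
      ring
    simp_rw [h3]
    rw [← Finset.mul_sum, ← map_sum]
    split_ifs with hx
    · have : L1.mkQ x = 0 := by
        rw [Submodule.mkQ_apply]; exact (Submodule.Quotient.mk_eq_zero L1).mpr hx
      rw [this]
      simp only [map_zero, AddChar.map_zero_eq_one, Finset.sum_const, Finset.card_univ, nsmul_eq_mul,
        mul_one, map_natCast]
      rw [mul_comm]
    · rw [dual_orth hFOU (L ⧸ L1) (L1.mkQ x) (by
        rw [Submodule.mkQ_apply]
        exact fun h => hx ((Submodule.Quotient.mk_eq_zero L1).mp h))]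
      simp
  rw [h1] at h2
  exact mul_left_cancel₀ hD0 h2

end dual

section conc
variable {p N : ℕ} [Fact p.Prime] [NeZero (p ^ N)] {S : Type} [Ring S] [Algebra (ZMod (p ^ N)) S]

/-- the exponential is a bijection -/
theorem exists_E (hLH1 : S_LH1) (hN : 0 < N) (c : ℕ) (J : Submodule (ZMod (p ^ N)) S)
    (H : Subgroup Sˣ) (hU : Uni p N c J H) :
    ∃ E : LHm p N J H ≃ H, ∀ x, ((E x : Sˣ) : S) = ex p N (x : S) := by
  obtain ⟨h1, h2, h3, h4, h5, h6⟩ := hLH1 p N c hN S J H hU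
  have h7 : ∀ x : LHm p N J H, ∃ h : H, ((h : Sˣ) : S) = ex p N (x : S) := by
    intro x
    obtain ⟨-, h, hh, he⟩ := (h1 x).mp x.2
    exact ⟨⟨h, hh⟩, he⟩
  choose E hE using h7
  refine ⟨Equiv.ofBijective E ⟨?_, ?_⟩, hE⟩
  · intro x y hxy
    obtain ⟨z, -, hz⟩ := h4 (E x) (E x).2
    have hx := hz x ⟨x.2, (hE x).symm⟩
    have hy := hz y ⟨y.2, by rw [hxy]; exact (hE y).symm⟩
    exact Subtype.ext (hx.trans hy.symm)
  · intro h
    obtain ⟨z, ⟨hz1, hz2⟩, -⟩ := h4 h h.2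
    refine ⟨⟨z, hz1⟩, Subtype.ext (Units.ext ?_)⟩
    rw [hE]; exact hz2

/-- conjugation action on the Lie ring -/
noncomputable def actL (J : Submodule (ZMod (p ^ N)) S) (H : Subgroup Sˣ)
    (hc : ∀ x ∈ LHm p N J H, ∀ h ∈ H, (h : S) * x * ((h⁻¹ : Sˣ) : S) ∈ LHm p N J H) :
    Representation (ZMod (p ^ N)) H (LHm p N J H) where
  toFun h :=
    { toFun := fun x => ⟨((h : Sˣ) : S) * x * (((h : Sˣ)⁻¹ : Sˣ) : S), hc x x.2 h h.2⟩
      map_add' := by
        intro x y
        apply Subtype.ext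
        show ((h : Sˣ) : S) * ((x : S) + y) * _ = _ * (x : S) * _ + _ * (y : S) * _
        rw [mul_add, add_mul]
      map_smul' := by
        intro r x
        apply Subtype.ext
        show ((h : Sˣ) : S) * (r • (x : S)) * _ = r • (_ * (x : S) * _)
        rw [mul_smul_comm, smul_mul_assoc] }
  map_one' := by
    ext x
    show (((1 : H) : Sˣ) : S) * (x : S) * ((((1 : H) : Sˣ)⁻¹ : Sˣ) : S) = x
    simp
  map_mul' := by
    intro g h
    ext x
    show (((g * h : H) : Sˣ) : S) * (x : S) * ((((g * h : H) : Sˣ)⁻¹ : Sˣ) : S) =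
      ((g : Sˣ) : S) * (((h : Sˣ) : S) * (x : S) * (((h : Sˣ)⁻¹ : Sˣ) : S)) *
        (((g : Sˣ)⁻¹ : Sˣ) : S)
    simp only [Subgroup.coe_mul, Units.val_mul, mul_inv_rev]
    simp only [mul_assoc]

theorem ap_coe {L : Submodule (ZMod (p ^ N)) S} (f : L →ₗ[ZMod (p ^ N)] ZMod (p ^ N)) (x : L) :
    ap f (x : S) = f x := by
  unfold ap
  rw [dif_pos x.2]

theorem ap_mem {L : Submodule (ZMod (p ^ N)) S} (f : L →ₗ[ZMod (p ^ N)] ZMod (p ^ N)) (x : S)
    (hx : x ∈ L) : ap f x = f ⟨x, hx⟩ := by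
  unfold ap
  rw [dif_pos hx]

theorem actL_coe (J : Submodule (ZMod (p ^ N)) S) (H : Subgroup Sˣ)
    (hc : ∀ x ∈ LHm p N J H, ∀ h ∈ H, (h : S) * x * ((h⁻¹ : Sˣ) : S) ∈ LHm p N J H)
    (h : H) (x : LHm p N J H) :
    ((actL J H hc h x : LHm p N J H) : S) = ((h : Sˣ) : S) * x * (((h : Sˣ)⁻¹ : Sˣ) : S) := rfl

/-- the theta sum of `CF` -/
theorem theta_eq (J : Submodule (ZMod (p ^ N)) S) (H : Subgroup Sˣ) [Fintype H]
    (hc : ∀ x ∈ LHm p N J H, ∀ h ∈ H, (h : S) * x * ((h⁻¹ : Sˣ) : S) ∈ LHm p N J H)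
    (f : LHm p N J H →ₗ[ZMod (p ^ N)] ZMod (p ^ N)) (x : LHm p N J H) :
    ∑ h : H, (ZMod.stdAddChar (N := p ^ N)
        (ap f ((((h : Sˣ)⁻¹ : Sˣ) : S) * x * ((h : Sˣ) : S))) : ℂ) =
    ∑ h : H, (ZMod.stdAddChar (N := p ^ N) (f (actL J H hc h x)) : ℂ) := by
  rw [← Equiv.sum_comp (Equiv.inv H)]
  refine Finset.sum_congr rfl fun h _ => ?_
  rw [← ap_coe f, actL_coe]
  simp only [Equiv.inv_apply, Subgroup.coe_inv, inv_inv]

/-- a class function composed with `ex` is invariant -/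
theorem inv_F (hEX : S_EX) (c : ℕ) (J : Submodule (ZMod (p ^ N)) S)
    (H : Subgroup Sˣ) (hU : Uni p N c J H)
    (hc : ∀ x ∈ LHm p N J H, ∀ h ∈ H, (h : S) * x * ((h⁻¹ : Sˣ) : S) ∈ LHm p N J H)
    (E : LHm p N J H ≃ H) (hE : ∀ x, ((E x : Sˣ) : S) = ex p N (x : S))
    (χ : H → ℂ) (hχ : ∀ g h, χ (h * g * h⁻¹) = χ g) (h : H) (x : LHm p N J H) :
    χ (E (actL J H hc h x)) = χ (E x) := by
  have : E (actL J H hc h x) = h * E x * h⁻¹ := by
    apply Subtype.ext
    apply Units.ext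
    rw [hE, actL_coe, (hEX p N c S J hU.mul hU.lt hU.nil).2.2.2.2.2.1 h x]
    simp only [Subgroup.coe_mul, Subgroup.coe_inv, Units.val_mul, hE]
  rw [this, hχ]

/-- part (B) for `H` -/
def KB (p N : ℕ) [NeZero (p ^ N)] {S : Type} [Ring S] [Algebra (ZMod (p ^ N)) S]
    (J : Submodule (ZMod (p ^ N)) S) (H : Subgroup Sˣ) [Fintype H] : Prop :=
  ∀ f : LHm p N J H →ₗ[ZMod (p ^ N)] ZMod (p ^ N),
    ∃ (W : Type) (_ : AddCommGroup W) (_ : Module ℂ W) (_ : FiniteDimensional ℂ W)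
      (rep : Representation ℂ H W), rep.IsIrreducible ∧ CF J H f (Module.finrank ℂ W) (chr rep)

/-- multiplicities are natural numbers -/
theorem mult_nat (hCH0 : S_CH0) (G : Type) [Group G] [Fintype G] (W : Type) [AddCommGroup W]
    [Module ℂ W] [FiniteDimensional ℂ W] (rep : Representation ℂ G W) (χ' : G → ℂ)
    (h' : IsIrr χ') :
    ∃ n : ℕ, ∑ g, chr rep g * (starRingEnd ℂ) (χ' g) = n * (Fintype.card G : ℂ) := by
  classical
  obtain ⟨h1, h2, -⟩ := hCH0 G
  obtain ⟨n, c, hc, hs⟩ := h2 W rep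
  refine ⟨(Finset.univ.filter fun i => c i = χ').card, ?_⟩
  simp_rw [hs, Finset.sum_mul]
  rw [Finset.sum_comm]
  have : ∀ i, ∑ g, c i g * (starRingEnd ℂ) (χ' g) = if c i = χ' then (Fintype.card G : ℂ) else 0 := by
    intro i
    split_ifs with h
    · exact (h1 (c i) χ' (hc i) h').1 h
    · exact (h1 (c i) χ' (hc i) h').2 h
  simp_rw [this]
  rw [← Finset.sum_filter, Finset.sum_const, nsmul_eq_mul]

/-- the invariant case -/
theorem claim_lin (hLH1 : S_LH1) (hINV : S_INV) (hRAD : S_RAD) (hCH0 : S_CH0)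
    (hN : 0 < N) (c : ℕ) (J : Submodule (ZMod (p ^ N)) S)
    (H : Subgroup Sˣ) [Fintype H] [Fintype (LHm p N J H)] (hU : Uni p N c J H)
    (E : LHm p N J H ≃ H) (hE : ∀ x, ((E x : Sˣ) : S) = ex p N (x : S))
    (χ : H → ℂ) (hχ : IsIrr χ) (f : LHm p N J H →ₗ[ZMod (p ^ N)] ZMod (p ^ N))
    (hf : ∀ x ∈ LHm p N J H, x ∈ RadS f) :
    ∃ n : ℕ, ∑ x, χ (E x) * (starRingEnd ℂ) (ZMod.stdAddChar (N := p ^ N) (f x) : ℂ) =
      n * (Fintype.card H : ℂ) := by
  obtain ⟨h1, h2, h3, h4, h5, h6⟩ := hLH1 p N c hN S J H hU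
  have hinv := hINV p N c hN S J H (Finite.of_fintype _) hU (fun x => ap f x)
    (by
      intro x hx y hy
      show ap f (x + y) = ap f x + ap f y
      rw [ap_mem f x hx, ap_mem f y hy, ap_mem f (x + y) (Submodule.add_mem _ hx hy), ← map_add]
      rfl)
    (by
      intro x hx h hh
      obtain ⟨r1, -, -⟩ := hRAD p N c hN S J H (Finite.of_fintype _) hU f
      obtain ⟨z, ⟨hz1, hz2⟩, -⟩ := h4 h⁻¹ (H.inv_mem hh)
      have := (r1 z hz1 h⁻¹ (H.inv_mem hh) hz2.symm).mpr (hf z hz1) x hx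
      rwa [inv_inv] at this)
  have hmul : ∀ g h : H, f (E.symm (g * h)) = f (E.symm g) + f (E.symm h) := by
    intro g h
    have := hinv (E.symm g) (E.symm g).2 (E.symm h) (E.symm h).2 (E.symm (g * h))
      (E.symm (g * h)).2 (by
        rw [← hE, ← hE, ← hE, Equiv.apply_symm_apply, Equiv.apply_symm_apply,
          Equiv.apply_symm_apply]
        simp)
    simpa only [ap_coe] using this
  have hone : f (E.symm 1) = 0 := by
    have := hmul 1 1
    rw [mul_one] at this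
    exact (left_eq_add.mp this)
  have hirr : IsIrr (fun g : H => (ZMod.stdAddChar (N := p ^ N) (f (E.symm g)) : ℂ)) := by
    refine (hCH0 H).2.2.1 _ ?_ ?_
    · show (ZMod.stdAddChar (N := p ^ N) (f (E.symm 1)) : ℂ) = 1
      rw [hone, AddChar.map_zero_eq_one]
    · intro g h
      show (ZMod.stdAddChar (N := p ^ N) (f (E.symm (g * h))) : ℂ) = _
      rw [hmul, AddChar.map_add_eq_mul]
  have hsum : ∑ x, χ (E x) * (starRingEnd ℂ) (ZMod.stdAddChar (N := p ^ N) (f x) : ℂ) =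
      ∑ g : H, χ g * (starRingEnd ℂ) (ZMod.stdAddChar (N := p ^ N) (f (E.symm g)) : ℂ) := by
    rw [← Equiv.sum_comp E]
    refine Finset.sum_congr rfl fun x _ => ?_
    rw [Equiv.symm_apply_apply]
  rw [hsum]
  by_cases h : χ = fun g : H => (ZMod.stdAddChar (N := p ^ N) (f (E.symm g)) : ℂ)
  · refine ⟨1, ?_⟩
    rw [((hCH0 H).1 _ _ hχ hirr).1 h, Nat.cast_one, one_mul]
  · refine ⟨0, ?_⟩
    rw [((hCH0 H).1 _ _ hχ hirr).2 h, Nat.cast_zero, zero_mul]

/-- the stabiliser of a functional -/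
def Stf (J : Submodule (ZMod (p ^ N)) S) (H : Subgroup Sˣ)
    (hc : ∀ x ∈ LHm p N J H, ∀ h ∈ H, (h : S) * x * ((h⁻¹ : Sˣ) : S) ∈ LHm p N J H)
    (f : LHm p N J H →ₗ[ZMod (p ^ N)] ZMod (p ^ N)) : Subgroup H where
  carrier := {h | ∀ y ∈ LHm p N J H,
    ap f ((((h : Sˣ)⁻¹ : Sˣ) : S) * y * ((h : Sˣ) : S)) = ap f y}
  one_mem' := by
    intro y _
    simp
  mul_mem' := by
    intro g h hg hh y hy
    have h1 : ((((g * h : H) : Sˣ)⁻¹ : Sˣ) : S) * y * (((g * h : H) : Sˣ) : S) =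
        (((h : Sˣ)⁻¹ : Sˣ) : S) * ((((g : Sˣ)⁻¹ : Sˣ) : S) * y * ((g : Sˣ) : S)) *
          ((h : Sˣ) : S) := by
      simp only [Subgroup.coe_mul, Units.val_mul, mul_inv_rev]
      simp only [mul_assoc]
    have h2 : (((g : Sˣ)⁻¹ : Sˣ) : S) * y * ((g : Sˣ) : S) ∈ LHm p N J H := by
      have := hc y hy (g : Sˣ)⁻¹ (H.inv_mem g.2)
      rwa [inv_inv] at this
    rw [h1, hh _ h2, hg y hy]
  inv_mem' := by
    intro g hg y hy
    have h2 : ((g : Sˣ) : S) * y * (((g : Sˣ)⁻¹ : Sˣ) : S) ∈ LHm p N J H := hc y hy (g : Sˣ) g.2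
    have h3 := hg _ h2
    have h4 : (((g : Sˣ)⁻¹ : Sˣ) : S) * (((g : Sˣ) : S) * y * (((g : Sˣ)⁻¹ : Sˣ) : S)) *
        ((g : Sˣ) : S) = y := by
      simp only [mul_assoc, Units.inv_mul, mul_one, Units.inv_mul_cancel_left]
    rw [h4] at h3
    rw [h3]
    simp only [Subgroup.coe_inv, inv_inv]

/-- the non-invariant case -/
theorem claim_nonlin (hEX : S_EX) (hLH1 : S_LH1) (hRAD : S_RAD) (hKSY : S_KSY) (hFOU : S_FOU)
    (hCH0 : S_CH0) (hN : 0 < N) (c : ℕ) (J : Submodule (ZMod (p ^ N)) S)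
    (H : Subgroup Sˣ) [Fintype H] [Fintype (LHm p N J H)] (hU : Uni p N c J H)
    (IH : ∀ M : Subgroup Sˣ, M ≤ H → Nat.card M < Nat.card H → ∀ [Fintype M], KB p N J M)
    (E : LHm p N J H ≃ H) (hE : ∀ x, ((E x : Sˣ) : S) = ex p N (x : S))
    (χ : H → ℂ) (hχ : IsIrr χ) (f : LHm p N J H →ₗ[ZMod (p ^ N)] ZMod (p ^ N))
    (m : ℕ) (hm : m ^ 2 * Nat.card (RadS f) = Nat.card (LHm p N J H))
    (hf : ∃ x ∈ LHm p N J H, x ∉ RadS f) :
    ∃ n : ℕ, (m : ℂ) * ∑ x, χ (E x) * (starRingEnd ℂ) (ZMod.stdAddChar (N := p ^ N) (f x) : ℂ) =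
      n * (Fintype.card H : ℂ) := by
  classical
  have hp : p.Prime := Fact.out
  obtain ⟨h1, h2, h3, h4, h5, h6⟩ := hLH1 p N c hN S J H hU
  obtain ⟨e1, e2, e3, e4, e5, e6, e7⟩ := hEX p N c S J hU.mul hU.lt hU.nil
  obtain ⟨r1, -, -⟩ := hRAD p N c hN S J H (Finite.of_fintype _) hU f
  -- stabiliser
  have hSt : ∀ h : H, h ∈ Stf J H h2 f ↔ ((E.symm h : LHm p N J H) : S) ∈ RadS f := by
    intro h
    have he : ((h : Sˣ) : S) = ex p N ((E.symm h : LHm p N J H) : S) := by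
      rw [← hE, Equiv.apply_symm_apply]
    exact r1 _ (E.symm h).2 (h : Sˣ) h.2 he
  have hpg : IsPGroup p H := by
    intro g
    refine ⟨N, ?_⟩
    have he : ((g : Sˣ) : S) = ex p N ((E.symm g : LHm p N J H) : S) := by
      rw [← hE, Equiv.apply_symm_apply]
    have := (e7 _ ((h1 _).mp (E.symm g).2).1 (g : Sˣ) he).1
    exact Subtype.ext (by rw [Subgroup.coe_pow, this]; rfl)
  obtain ⟨b, hb⟩ := IsPGroup.iff_card.mp hpg
  obtain ⟨a, ha⟩ := IsPGroup.iff_card.mp (hpg.to_subgroup (Stf J H h2 f))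
  have hab : a < b := by
    have hdvd : p ^ a ∣ p ^ b := by rw [← ha, ← hb]; exact Subgroup.card_subgroup_dvd_card _
    have hle : a ≤ b := (Nat.pow_dvd_pow_iff_le_right hp.one_lt).mp hdvd
    rcases lt_or_eq_of_le hle with h | h
    · exact h
    · exfalso
      have htop : Stf J H h2 f = ⊤ := Subgroup.eq_top_of_card_eq _ (by rw [ha, hb, h])
      obtain ⟨x, hx, hxR⟩ := hf
      have h7 : E ⟨x, hx⟩ ∈ Stf J H h2 f := by rw [htop]; exact Subgroup.mem_top _
      rw [hSt, Equiv.symm_apply_apply] at h7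
      exact hxR h7
  obtain ⟨K, hK, hStK⟩ := Sylow.exists_subgroup_card_pow_prime_le (G := H) p (n := a) (m := b - 1)
    (by rw [hb]; exact pow_dvd_pow p (Nat.sub_le b 1)) (Stf J H h2 f) ha (by omega)
  have hbK : p * Nat.card K = Nat.card H := by
    rw [hK, hb, ← pow_succ']
    congr 1
    omega
  set M : Subgroup Sˣ := K.map H.subtype with hM
  have hMH : M ≤ H := Subgroup.map_subtype_le K
  have hMcard : Nat.card M = Nat.card K := Subgroup.card_subtype H K
  have hMK : M.subgroupOf H = K :=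
    Subgroup.comap_map_eq_self_of_injective H.subtype_injective K
  have hKpos : 0 < Nat.card K := by rw [hK]; exact pow_pos hp.pos _
  have hrel : M.relIndex H = p := by
    unfold Subgroup.relIndex
    rw [hMK]
    have := K.index_mul_card
    rw [← hbK] at this
    exact Nat.eq_of_mul_eq_mul_right hKpos this
  haveI : Finite M :=
    Finite.of_injective (Subgroup.inclusion hMH) (Subgroup.inclusion_injective hMH)
  haveI : Fintype M := Fintype.ofFinite M
  have hUM : Uni p N c J M := ⟨hU.mul, hU.lt, hU.nil, fun h hh => hU.sub h (hMH hh)⟩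
  obtain ⟨m1, m2, m3, m4, m5, m6⟩ := hLH1 p N c hN S J M hUM
  obtain ⟨hle, hmem⟩ := h6 M hMH
  set g : LHm p N J M →ₗ[ZMod (p ^ N)] ZMod (p ^ N) := f.comp (Submodule.inclusion hle) with hg
  have hgf : ∀ x ∈ LHm p N J M, ap g x = ap f x := by
    intro x hx
    rw [ap_mem g x hx, ap_mem f x (hle hx)]
    rfl
  have hRM : ∀ x ∈ RadS f, x ∈ LHm p N J M := by
    intro x hx
    have hxL : x ∈ LHm p N J H := hx.1
    rw [hmem x hxL]
    refine ⟨(E ⟨x, hxL⟩ : Sˣ), ?_, hE ⟨x, hxL⟩⟩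
    have h7 : E ⟨x, hxL⟩ ∈ Stf J H h2 f := by rw [hSt, Equiv.symm_apply_apply]; exact hx
    exact ⟨E ⟨x, hxL⟩, hStK h7, rfl⟩
  obtain ⟨k1, k2⟩ := hKSY p N c hN S J H M (Finite.of_fintype _) hU hMH hrel f g hgf hRM
  have hlt : Nat.card M < Nat.card H := by
    rw [hMcard, ← hbK]
    have := hp.two_le
    nlinarith
  obtain ⟨W', i1, i2, i3, rep', hirr', hCF1, hCF2⟩ := IH M hMH hlt g
  set m' := Module.finrank ℂ W' with hm'
  -- m = p m'
  have hRpos : 0 < Nat.card (RadS f) := by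
    rcases Nat.eq_zero_or_pos (Nat.card (RadS f)) with h | h
    · rw [h, mul_zero, h5] at hm
      have : 0 < Nat.card H := Nat.card_pos
      omega
    · exact h
  have hmm : m = p * m' := by
    have h7 : m ^ 2 * Nat.card (RadS f) = (p * m') ^ 2 * Nat.card (RadS f) := by
      rw [hm, h5, ← hbK, ← hMcard, ← m5, ← hCF1, k1]
      ring
    have h8 := Nat.eq_of_mul_eq_mul_right hRpos h7
    exact Nat.pow_left_injective (n := 2) (by norm_num) h8
  -- E on M
  obtain ⟨EM, hEM⟩ := exists_E hLH1 hN c J M hUM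
  haveI : Fintype (LHm p N J M) := Fintype.ofEquiv M EM.symm
  obtain ⟨W, _, _, _, rep, hirr, hrep⟩ := hχ
  obtain ⟨n, hn⟩ := mult_nat hCH0 M W (rep.comp (Subgroup.inclusion hMH)) (chr rep')
    ⟨W', i1, i2, i3, rep', hirr', fun _ => rfl⟩
  have hchr : ∀ u : M, chr (rep.comp (Subgroup.inclusion hMH)) u = χ (Subgroup.inclusion hMH u) := by
    intro u
    rw [hrep]; rfl
  have hFM : ∀ (h : M) (x : LHm p N J M), χ (Subgroup.inclusion hMH (EM (actL J M m2 h x))) =
      χ (Subgroup.inclusion hMH (EM x)) := by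
    intro h x
    refine inv_F hEX c J M hUM m2 EM hEM (fun u => χ (Subgroup.inclusion hMH u)) ?_ h x
    intro g h
    show χ (Subgroup.inclusion hMH (h * g * h⁻¹)) = χ (Subgroup.inclusion hMH g)
    rw [hrep, hrep, map_mul, map_mul, map_inv]
    exact ((hCH0 H).2.2.2.2 W rep).2.1 _ _
  have hcM : (Fintype.card M : ℂ) ≠ 0 := by
    have : Fintype.card M ≠ 0 := Fintype.card_ne_zero
    exact_mod_cast this
  -- the scalar product on M
  have hs1 : (Fintype.card M : ℂ) *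
      ∑ u : M, chr (rep.comp (Subgroup.inclusion hMH)) u * (starRingEnd ℂ) (chr rep' u) =
      (Fintype.card M : ℂ) * ((m' : ℂ) * ∑ x : LHm p N J M, χ (Subgroup.inclusion hMH (EM x)) *
        (starRingEnd ℂ) (ZMod.stdAddChar (N := p ^ N) (g x) : ℂ)) := by
    have hx : ∀ x : LHm p N J M, (Fintype.card M : ℂ) * (chr rep' (EM x)) =
        (m' : ℂ) * ∑ h : M, (ZMod.stdAddChar (N := p ^ N) (g (actL J M m2 h x)) : ℂ) := by
      intro x
      rw [hCF2 x x.2 (EM x) (hEM x), theta_eq J M m2 g x]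
    have hx' : ∀ x : LHm p N J M, (Fintype.card M : ℂ) * (starRingEnd ℂ) (chr rep' (EM x)) =
        (m' : ℂ) * ∑ h : M, (starRingEnd ℂ)
          (ZMod.stdAddChar (N := p ^ N) (g (actL J M m2 h x)) : ℂ) := by
      intro x
      have := congrArg (starRingEnd ℂ) (hx x)
      simpa only [map_mul, map_sum, map_natCast] using this
    have havg := avg (actL J M m2) (fun x => χ (Subgroup.inclusion hMH (EM x))) hFM
      (fun x => (starRingEnd ℂ) (ZMod.stdAddChar (N := p ^ N) (g x) : ℂ))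
    rw [← mul_left_comm, ← havg, ← Equiv.sum_comp EM, Finset.mul_sum, Finset.mul_sum]
    refine Finset.sum_congr rfl fun x _ => ?_
    rw [hchr, mul_left_comm, hx' x]
    ring
  have hs2 := mul_left_cancel₀ hcM hs1
  rw [hn] at hs2
  -- from LM to L
  have hinvF : ∀ (h : H) (x : LHm p N J H), χ (E (actL J H h2 h x)) = χ (E x) := by
    refine inv_F hEX c J H hU h2 E hE χ ?_
    intro g h
    rw [hrep, hrep]
    exact ((hCH0 H).2.2.2.2 W rep).2.1 _ _
  have hs3 := subsp hFOU (LHm p N J H) ((LHm p N J M).comap (LHm p N J H).subtype) f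
    (fun x => χ (E x)) (by
      intro f' hf'
      have hf'' : ∀ x ∈ LHm p N J M, ap f' x = ap f x := by
        intro x hx
        rw [ap_mem f' x (hle hx), ap_mem f x (hle hx)]
        exact hf' ⟨x, hle hx⟩ hx
      obtain ⟨h, hh, hhy⟩ := k2 f' hf''
      have h8 : ∀ x : LHm p N J H, f' x = f (actL J H h2 (⟨h, hMH hh⟩ : H)⁻¹ x) := by
        intro x
        rw [← ap_coe f', hhy x x.2, ← ap_coe f, actL_coe]
        simp only [Subgroup.coe_inv, inv_inv]
      simp_rw [h8]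
      exact shift (actL J H h2) (fun x => χ (E x)) hinvF
        (fun x => (starRingEnd ℂ) (ZMod.stdAddChar (N := p ^ N) (f x) : ℂ)) _)
  have hs4 : (∑ x : LHm p N J H, if x ∈ (LHm p N J M).comap (LHm p N J H).subtype then
      χ (E x) * (starRingEnd ℂ) (ZMod.stdAddChar (N := p ^ N) (f x) : ℂ) else 0) =
      ∑ x : LHm p N J M, χ (Subgroup.inclusion hMH (EM x)) *
        (starRingEnd ℂ) (ZMod.stdAddChar (N := p ^ N) (g x) : ℂ) := by
    rw [← Finset.sum_filter]
    symm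
    refine Finset.sum_bij (fun x _ => Submodule.inclusion hle x) ?_ ?_ ?_ ?_
    · intro x _
      rw [Finset.mem_filter]
      exact ⟨Finset.mem_univ _, x.2⟩
    · intro x _ y _ hxy
      exact Submodule.inclusion_injective hle hxy
    · intro y hy
      rw [Finset.mem_filter] at hy
      exact ⟨⟨y, hy.2⟩, Finset.mem_univ _, Subtype.ext rfl⟩
    · intro x _
      have : E (Submodule.inclusion hle x) = Subgroup.inclusion hMH (EM x) := by
        apply Subtype.ext
        apply Units.ext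
        rw [hE]
        show ex p N (x : S) = ((EM x : Sˣ) : S)
        rw [hEM]
      rw [this]
      rfl
  refine ⟨n, ?_⟩
  rw [hs3, hs4, hmm, Nat.cast_mul, mul_assoc, ← hs2]
  have hcc : (Fintype.card H : ℂ) = p * Fintype.card M := by
    have : Fintype.card H = p * Fintype.card M := by
      rw [← Nat.card_eq_fintype_card, ← Nat.card_eq_fintype_card, hMcard, hbK]
    rw [this, Nat.cast_mul]
  rw [hcc]
  ring

theorem ex_zero : ex p N (0 : S) = 1 := by
  have hp : p.Prime := Fact.out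
  unfold ex
  rw [Finset.sum_eq_single 0]
  · simp
  · intro i _ hi
    rw [zero_pow hi, smul_zero]
  · intro h
    exact absurd (Finset.mem_range.mpr hp.pos) h

/-- the number of pairs -/
theorem card_pairs (hRAD : S_RAD)
    (hN : 0 < N) (c : ℕ) (J : Submodule (ZMod (p ^ N)) S)
    (H : Subgroup Sˣ) [Fintype H] [Fintype (LHm p N J H)] (hU : Uni p N c J H)
    (h2 : ∀ x ∈ LHm p N J H, ∀ h ∈ H, (h : S) * x * ((h⁻¹ : Sˣ) : S) ∈ LHm p N J H)
    (E : LHm p N J H ≃ H) (hE : ∀ x, ((E x : Sˣ) : S) = ex p N (x : S))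
    (f : LHm p N J H →ₗ[ZMod (p ^ N)] ZMod (p ^ N)) :
    Nat.card {q : H × H // ∀ x, f (actL J H h2 q.1 x) = f (actL J H h2 q.2 x)} =
      Nat.card H * Nat.card (RadS f) := by
  obtain ⟨r1, -, -⟩ := hRAD p N c hN S J H (Finite.of_fintype _) hU f
  have hSt : ∀ h : H, h ∈ Stf J H h2 f ↔ ((E.symm h : LHm p N J H) : S) ∈ RadS f := by
    intro h
    have he : ((h : Sˣ) : S) = ex p N ((E.symm h : LHm p N J H) : S) := by
      rw [← hE, Equiv.apply_symm_apply]
    exact r1 _ (E.symm h).2 (h : Sˣ) h.2 he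
  have hSt2 : ∀ h : H, h ∈ Stf J H h2 f ↔ ∀ x, f (actL J H h2 h⁻¹ x) = f x := by
    intro h
    constructor
    · intro hh x
      have := hh x x.2
      rw [← ap_coe f, actL_coe, ← ap_coe f x]
      simpa only [Subgroup.coe_inv, inv_inv] using this
    · intro hh y hy
      have := hh ⟨y, hy⟩
      rw [← ap_coe f, actL_coe, ← ap_coe f] at this
      simpa only [Subgroup.coe_inv, inv_inv] using this
  have e1 : (Stf J H h2 f) ≃ (RadS f) :=
    { toFun := fun h => ⟨E.symm h, (hSt h).mp h.2⟩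
      invFun := fun x => ⟨E ⟨x, x.2.1⟩, (hSt _).mpr (by rw [Equiv.symm_apply_apply]; exact x.2)⟩
      left_inv := by
        intro h
        apply Subtype.ext
        show E (E.symm h) = h
        exact Equiv.apply_symm_apply _ _
      right_inv := by
        intro x
        apply Subtype.ext
        show ((E.symm (E ⟨x, x.2.1⟩) : LHm p N J H) : S) = x
        rw [Equiv.symm_apply_apply] }
  have hmulact : ∀ (g h : H) (x : LHm p N J H),
      actL J H h2 (g * h) x = actL J H h2 g (actL J H h2 h x) := by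
    intro g h x
    rw [map_mul]; rfl
  have e2 : {q : H × H // ∀ x, f (actL J H h2 q.1 x) = f (actL J H h2 q.2 x)} ≃
      H × (Stf J H h2 f) :=
    { toFun := fun q => (q.1.1, ⟨q.1.2 * q.1.1⁻¹, (hSt2 _).mpr (by
        intro x
        rw [mul_inv_rev, inv_inv, hmulact, q.2, act_inv])⟩)
      invFun := fun r => ⟨(r.1, r.2.1 * r.1), by
        intro x
        show f (actL J H h2 r.1 x) = f (actL J H h2 (r.2.1 * r.1) x)
        have h3 := (hSt2 r.2.1).mp r.2.2 (actL J H h2 (r.2.1 * r.1) x)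
        rw [← h3, ← hmulact, inv_mul_cancel_left]⟩
      left_inv := by
        intro q
        apply Subtype.ext
        show (q.1.1, q.1.2 * q.1.1⁻¹ * q.1.1) = q.1
        rw [inv_mul_cancel_right]
      right_inv := by
        intro r
        refine Prod.ext rfl (Subtype.ext ?_)
        show r.2.1 * r.1 * r.1⁻¹ = r.2.1
        rw [mul_inv_cancel_right] }
  rw [Nat.card_congr e2, Nat.card_prod, Nat.card_congr e1]

/-- the core: a functional with a non-zero coefficient gives the character -/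
theorem core (hEX : S_EX) (hLH1 : S_LH1) (hRAD : S_RAD) (hFOU : S_FOU) (hCH0 : S_CH0)
    (hN : 0 < N) (c : ℕ) (J : Submodule (ZMod (p ^ N)) S)
    (H : Subgroup Sˣ) [Fintype H] [Fintype (LHm p N J H)] (hU : Uni p N c J H)
    (E : LHm p N J H ≃ H) (hE : ∀ x, ((E x : Sˣ) : S) = ex p N (x : S))
    (W : Type) [AddCommGroup W] [Module ℂ W] [FiniteDimensional ℂ W] (rep : Representation ℂ H W)
    (hirr : rep.IsIrreducible)
    (f : LHm p N J H →ₗ[ZMod (p ^ N)] ZMod (p ^ N))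
    (m : ℕ) (hm : m ^ 2 * Nat.card (RadS f) = Nat.card (LHm p N J H)) (n : ℕ) (hn0 : n ≠ 0)
    (hn : (m : ℂ) * ∑ x, chr rep (E x) *
      (starRingEnd ℂ) (ZMod.stdAddChar (N := p ^ N) (f x) : ℂ) = n * (Fintype.card H : ℂ)) :
    CF J H f (Module.finrank ℂ W) (chr rep) := by
  obtain ⟨h1, h2, h3, h4, h5, h6⟩ := hLH1 p N c hN S J H hU
  have hE0 : E 0 = 1 := by
    apply Subtype.ext
    apply Units.ext
    rw [hE]
    show ex p N (0 : S) = 1
    exact ex_zero
  have hcH : (Fintype.card H : ℂ) ≠ 0 := by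
    have : Fintype.card H ≠ 0 := Fintype.card_ne_zero
    exact_mod_cast this
  have hLH : Fintype.card (LHm p N J H) = Fintype.card H := Fintype.card_congr E
  have hinvF : ∀ (h : H) (x : LHm p N J H), chr rep (E (actL J H h2 h x)) = chr rep (E x) :=
    inv_F hEX c J H hU h2 E hE (chr rep) ((hCH0 H).2.2.2.2 W rep).2.1
  set θ : LHm p N J H → ℂ := fun x =>
    ∑ h : H, (ZMod.stdAddChar (N := p ^ N) (f (actL J H h2 h x)) : ℂ) with hθ
  have hIrr : IsIrr (chr rep) := ⟨W, _, _, ‹_›, rep, hirr, fun _ => rfl⟩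
  have hFF : ∑ x, chr rep (E x) * (starRingEnd ℂ) (chr rep (E x)) = ((Fintype.card H : ℝ) : ℂ) := by
    have h8 := ((hCH0 H).1 _ _ hIrr hIrr).1 rfl
    rw [← Equiv.sum_comp E] at h8
    rw [h8]
    push_cast
    rfl
  have hθθ : ∑ x, θ x * (starRingEnd ℂ) (θ x) =
      (Fintype.card H : ℂ) * ((Fintype.card H : ℂ) * (Nat.card (RadS f) : ℂ)) := by
    have h8 := ((hFOU p N (LHm p N J H)).1 H (actL J H h2)).1 f f
    rw [card_pairs hRAD hN c J H hU h2 E hE f, Nat.card_eq_fintype_card, hLH] at h8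
    rw [hθ, h8]
    push_cast
    rfl
  have hmC : (m : ℂ) ^ 2 * (Nat.card (RadS f) : ℂ) = (Fintype.card H : ℂ) := by
    have h8 : m ^ 2 * Nat.card (RadS f) = Fintype.card H := by
      rw [hm, Nat.card_eq_fintype_card, hLH]
    exact_mod_cast h8
  have hGG : ∑ x, ((m : ℂ) / (Fintype.card H : ℂ) * θ x) *
      (starRingEnd ℂ) ((m : ℂ) / (Fintype.card H : ℂ) * θ x) = ((Fintype.card H : ℝ) : ℂ) := by
    have h8 : ∀ x, ((m : ℂ) / (Fintype.card H : ℂ) * θ x) *
      (starRingEnd ℂ) ((m : ℂ) / (Fintype.card H : ℂ) * θ x) =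
      ((m : ℂ) / (Fintype.card H : ℂ)) ^ 2 * (θ x * (starRingEnd ℂ) (θ x)) := by
      intro x
      simp only [map_mul, map_div₀, map_natCast]
      ring
    simp_rw [h8]
    rw [← Finset.mul_sum, hθθ]
    have h9 : ((Fintype.card H : ℝ) : ℂ) = (Fintype.card H : ℂ) := by push_cast; rfl
    rw [h9]
    have h10 : ((m : ℂ) / (Fintype.card H : ℂ)) ^ 2 *
        ((Fintype.card H : ℂ) * ((Fintype.card H : ℂ) * (Nat.card (RadS f) : ℂ))) =
        (m : ℂ) ^ 2 * (Nat.card (RadS f) : ℂ) := by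
      field_simp
    rw [h10, hmC]
  have hFG : ∑ x, chr rep (E x) *
      (starRingEnd ℂ) ((m : ℂ) / (Fintype.card H : ℂ) * θ x) = n * ((Fintype.card H : ℝ) : ℂ) := by
    have h8 : ∀ x, (starRingEnd ℂ) ((m : ℂ) / (Fintype.card H : ℂ) * θ x) =
        (m : ℂ) / (Fintype.card H : ℂ) * ∑ h : H, (starRingEnd ℂ)
          (ZMod.stdAddChar (N := p ^ N) (f (actL J H h2 h x)) : ℂ) := by
      intro x
      simp only [hθ, map_mul, map_div₀, map_natCast, map_sum]
    have havg := avg (actL J H h2) (fun x => chr rep (E x)) hinvF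
      (fun x => (starRingEnd ℂ) (ZMod.stdAddChar (N := p ^ N) (f x) : ℂ))
    have h9 : ∑ x, chr rep (E x) * (starRingEnd ℂ) ((m : ℂ) / (Fintype.card H : ℂ) * θ x) =
        (m : ℂ) / (Fintype.card H : ℂ) * ∑ x, chr rep (E x) * ∑ h : H, (starRingEnd ℂ)
          (ZMod.stdAddChar (N := p ^ N) (f (actL J H h2 h x)) : ℂ) := by
      rw [Finset.mul_sum]
      refine Finset.sum_congr rfl fun x _ => ?_
      rw [h8]; ring
    rw [h9, havg]
    have h10 : ((Fintype.card H : ℝ) : ℂ) = (Fintype.card H : ℂ) := by push_cast; rfl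
    rw [h10, ← hn]
    field_simp
  have hFGx := norm_lemma (fun x => chr rep (E x))
    (fun x => (m : ℂ) / (Fintype.card H : ℂ) * θ x) (Fintype.card H : ℝ) n hn0 (by positivity)
    hFF hGG hFG
  have hx : ∀ x, (Fintype.card H : ℂ) * chr rep (E x) = (m : ℂ) * θ x := by
    intro x
    rw [hFGx x]
    field_simp
  have hdim : Module.finrank ℂ W = m := by
    have h8 := hx 0
    rw [hE0, ((hCH0 H).2.2.2.2 W rep).1] at h8
    have h9 : θ 0 = (Fintype.card H : ℂ) := by
      simp only [hθ, map_zero, AddChar.map_zero_eq_one, Finset.sum_const, Finset.card_univ,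
        nsmul_eq_mul, mul_one]
    rw [h9, mul_comm] at h8
    exact_mod_cast mul_right_cancel₀ hcH h8
  refine ⟨by rw [hdim]; exact hm, ?_⟩
  intro x hxL g hg
  have hgE : g = E ⟨x, hxL⟩ := by
    apply Subtype.ext
    apply Units.ext
    rw [hE]; exact hg
  rw [hgE, hx, hdim, theta_eq J H h2 f ⟨x, hxL⟩]

/-- the induction -/
theorem main (hEX : S_EX) (hLH1 : S_LH1) (hINV : S_INV) (hRAD : S_RAD) (hKSY : S_KSY)
    (hFOU : S_FOU) (hCH0 : S_CH0) (hN : 0 < N) (c : ℕ) (J : Submodule (ZMod (p ^ N)) S) :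
    ∀ (k : ℕ) (H : Subgroup Sˣ) [Fintype H], Nat.card H = k → Uni p N c J H →
      (∀ (W : Type) [AddCommGroup W] [Module ℂ W] [FiniteDimensional ℂ W]
        (rep : Representation ℂ H W), rep.IsIrreducible →
        ∃ f : LHm p N J H →ₗ[ZMod (p ^ N)] ZMod (p ^ N),
          CF J H f (Module.finrank ℂ W) (chr rep)) ∧ KB p N J H := by
  intro k
  induction k using Nat.strong_induction_on with
  | _ k ih =>
    intro H _ hk hU
    obtain ⟨E, hE⟩ := exists_E hLH1 hN c J H hU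
    haveI : Fintype (LHm p N J H) := Fintype.ofEquiv H E.symm
    obtain ⟨h1, h2, h3, h4, h5, h6⟩ := hLH1 p N c hN S J H hU
    have IH : ∀ M : Subgroup Sˣ, M ≤ H → Nat.card M < Nat.card H → ∀ [Fintype M], KB p N J M := by
      intro M hM hlt _
      exact (ih (Nat.card M) (by rw [← hk]; exact hlt) M rfl
        ⟨hU.mul, hU.lt, hU.nil, fun h hh => hU.sub h (hM hh)⟩).2
    have hcH : (Fintype.card H : ℂ) ≠ 0 := by
      have : Fintype.card H ≠ 0 := Fintype.card_ne_zero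
      exact_mod_cast this
    have claim : ∀ (χ : H → ℂ), IsIrr χ → ∀ (f : LHm p N J H →ₗ[ZMod (p ^ N)] ZMod (p ^ N))
        (m : ℕ), m ^ 2 * Nat.card (RadS f) = Nat.card (LHm p N J H) →
        ∃ n : ℕ, (m : ℂ) * ∑ x, χ (E x) *
          (starRingEnd ℂ) (ZMod.stdAddChar (N := p ^ N) (f x) : ℂ) =
          n * (Fintype.card H : ℂ) := by
      intro χ hχ f m hm
      by_cases hf : ∀ x ∈ LHm p N J H, x ∈ RadS f
      · have hR : RadS f = (LHm p N J H : Set S) := by
          ext x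
          exact ⟨fun h => h.1, fun h => hf x h⟩
        have hm1 : m = 1 := by
          rw [hR] at hm
          have hpos : 0 < Nat.card (LHm p N J H) := Nat.card_pos
          have h8 : m ^ 2 * Nat.card (LHm p N J H) = 1 * Nat.card (LHm p N J H) := by
            rw [one_mul]; exact hm
          have h9 := Nat.eq_of_mul_eq_mul_right hpos h8
          exact Nat.pow_left_injective (n := 2) (by norm_num) (by simpa using h9)
        obtain ⟨n, hn⟩ := claim_lin hLH1 hINV hRAD hCH0 hN c J H hU E hE χ hχ f hf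
        exact ⟨n, by rw [hm1, Nat.cast_one, one_mul, hn]⟩
      · push Not at hf
        exact claim_nonlin hEX hLH1 hRAD hKSY hFOU hCH0 hN c J H hU IH E hE χ hχ f m hm hf
    refine ⟨?_, ?_⟩
    · intro W _ _ _ rep hirr
      have hIrr : IsIrr (chr rep) := ⟨W, _, _, ‹_›, rep, hirr, fun _ => rfl⟩
      have hinvF : ∀ (h : H) (x : LHm p N J H), chr rep (E (actL J H h2 h x)) = chr rep (E x) :=
        inv_F hEX c J H hU h2 E hE (chr rep) ((hCH0 H).2.2.2.2 W rep).2.1
      have hex : ∃ f : LHm p N J H →ₗ[ZMod (p ^ N)] ZMod (p ^ N),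
          ∑ x, chr rep (E x) * (starRingEnd ℂ) (ZMod.stdAddChar (N := p ^ N) (f x) : ℂ) ≠ 0 := by
        by_contra hcon
        push Not at hcon
        have h8 := ((hFOU p N (LHm p N J H)).1 H (actL J H h2)).2 (fun x => chr rep (E x)) hinvF
          (by
            intro f
            have havg := avg (actL J H h2) (fun x => chr rep (E x)) hinvF
              (fun x => (starRingEnd ℂ) (ZMod.stdAddChar (N := p ^ N) (f x) : ℂ))
            rw [hcon f, mul_zero] at havg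
            simp_rw [map_sum]
            exact havg)
        have h9 := ((hCH0 H).1 _ _ hIrr hIrr).1 rfl
        rw [← Equiv.sum_comp E] at h9
        rw [Finset.sum_eq_zero (fun x _ => by rw [h8 x, zero_mul])] at h9
        exact hcH h9.symm
      obtain ⟨f, hf⟩ := hex
      obtain ⟨-, -, m, hm⟩ := hRAD p N c hN S J H (Finite.of_fintype _) hU f
      obtain ⟨n, hn⟩ := claim (chr rep) hIrr f m hm
      refine ⟨f, core hEX hLH1 hRAD hFOU hCH0 hN c J H hU E hE W rep hirr f m hm n ?_ hn⟩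
      intro hn0
      rw [hn0, Nat.cast_zero, zero_mul] at hn
      rcases mul_eq_zero.mp hn with h | h
      · have hm0 : m = 0 := by exact_mod_cast h
        rw [hm0] at hm
        have hpos : 0 < Nat.card (LHm p N J H) := Nat.card_pos
        omega
      · exact hf h
    · intro f
      obtain ⟨-, -, m, hm⟩ := hRAD p N c hN S J H (Finite.of_fintype _) hU f
      obtain ⟨nn, ch, hch1, hch2, hch3⟩ := (hCH0 H).2.2.2.1
      have hE0 : E 0 = 1 := by
        apply Subtype.ext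
        apply Units.ext
        rw [hE]
        show ex p N (0 : S) = 1
        exact ex_zero
      have hsum : ∑ i, ∑ x, ch i (E x) *
          (starRingEnd ℂ) (ZMod.stdAddChar (N := p ^ N) (f x) : ℂ) = (Fintype.card H : ℂ) := by
        rw [Finset.sum_comm]
        simp_rw [← Finset.sum_mul]
        rw [Finset.sum_eq_single (0 : LHm p N J H)]
        · rw [hE0, hch2, map_zero, AddChar.map_zero_eq_one, map_one, mul_one]
        · intro x _ hx
          rw [hch3 (E x) (fun h => hx (E.injective (h.trans hE0.symm))), zero_mul]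
        · intro h
          exact absurd (Finset.mem_univ _) h
      have hex : ∃ i, ∑ x, ch i (E x) *
          (starRingEnd ℂ) (ZMod.stdAddChar (N := p ^ N) (f x) : ℂ) ≠ 0 := by
        by_contra hcon
        push Not at hcon
        rw [Finset.sum_eq_zero (fun i _ => hcon i)] at hsum
        exact hcH hsum.symm
      obtain ⟨i, hi⟩ := hex
      obtain ⟨n, hn⟩ := claim (ch i) (hch1 i) f m hm
      obtain ⟨W, i1, i2, i3, rep, hirr, hrep⟩ := hch1 i
      refine ⟨W, i1, i2, i3, rep, hirr,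
        core hEX hLH1 hRAD hFOU hCH0 hN c J H hU E hE W rep hirr f m hm n ?_ ?_⟩
      · intro hn0
        rw [hn0, Nat.cast_zero, zero_mul] at hn
        rcases mul_eq_zero.mp hn with h | h
        · have hm0 : m = 0 := by exact_mod_cast h
          rw [hm0] at hm
          have hpos : 0 < Nat.card (LHm p N J H) := Nat.card_pos
          omega
        · exact hi h
      · rw [← hn]
        congr 1
        refine Finset.sum_congr rfl fun x _ => ?_
        rw [hrep]

end conc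

theorem t_KCH (hEX : S_EX) (hLH1 : S_LH1) (hINV : S_INV) (hRAD : S_RAD) (hKSY : S_KSY)
    (hFOU : S_FOU) (hCH0 : S_CH0) : S_KCH := by
  intro p N c _ _ hN _ S _ _ J H _ hU
  exact main hEX hLH1 hINV hRAD hKSY hFOU hCH0 hN c J (Nat.card H) H rfl hU

end H17.NE
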